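import Pool.Agent.Lib.MP_d11e37_lc.Main

/-!
# MP_d11e37_lc: the logical depth of sparse to dense random graphs
-/

set_option autoImplicit false

namespace Pool.Agent.Results.MP_d11e37_lc.LogDepth

open FirstOrder Filter

/-- The quantifier depth (quantifier rank) of a first-order formula in the language of graphs. -/
def qdepth : {m : ℕ} → Language.graph.BoundedFormula Empty m → ℕ
  | _, .falsum => 0
  | _, .equal _ _ => 0
  | _, .rel _ _ => 0
  | _, .imp φ ψ => max (qdepth φ) (qdepth ψ)
  | _, .all φ => qdepth φ + 1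

/-- `Defines φ G`: the sentence `φ` holds in `G` and fails in every finite graph which is not
isomorphic to `G`. -/
def Defines (φ : Language.graph.Sentence) {V : Type} (G : SimpleGraph V) : Prop :=
  @Language.Sentence.Realize Language.graph V G.structure φ ∧
    ∀ (W : Type) [Finite W] (H : SimpleGraph W), ¬ Nonempty (G ≃g H) →
      ¬ @Language.Sentence.Realize Language.graph W H.structure φ

/-- The logical depth D(G): the least quantifier depth of a sentence which defines `G`
(`⊤` if there is none). -/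
noncomputable def logicalDepth {V : Type} (G : SimpleGraph V) : ℕ∞ :=
  ⨅ (φ : Language.graph.Sentence) (_ : Defines φ G), (qdepth φ : ℕ∞)

open Classical in
/-- The probability of the event `A` in the random graph G(n, p): each of the pairs of vertices is
an edge with probability `p`, independently. -/
noncomputable def prob (n : ℕ) (p : ℝ) (A : SimpleGraph (Fin n) → Prop) : ℝ :=
  ∑ G : SimpleGraph (Fin n) with A G,
    ∏ e : Sym2 (Fin n) with ¬ e.IsDiag, if e ∈ G.edgeSet then p else 1 - p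

/-- The event that D(G) is finite and at most `x`. -/
def DepthLe (x : ℝ) {V : Type} (G : SimpleGraph V) : Prop :=
  ∃ k : ℕ, logicalDepth G = k ∧ (k : ℝ) ≤ x

theorem qdepth_le {m k : ℕ} {φ : Language.graph.BoundedFormula Empty m}
    (h : Pool.Agent.MPd11e37lc.QD m φ k) : qdepth φ ≤ k := by
  induction h with
  | falsum m k => simp [qdepth]
  | equal m k t₁ t₂ => simp [qdepth]
  | rel m k l R ts => simp [qdepth]
  | imp m k ψ χ _ _ ih1 ih2 => simp only [qdepth]; omega
  | all m k ψ _ ih => simp only [qdepth]; omega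

/-- Isomorphic graphs satisfy the same sentences. -/
theorem realize_iso {V W : Type} {G : SimpleGraph V} {H : SimpleGraph W} (e : G ≃g H)
    (φ : Language.graph.Sentence) :
    @Language.Sentence.Realize Language.graph V G.structure φ ↔
      @Language.Sentence.Realize Language.graph W H.structure φ := by
  let := G.structure
  let := H.structure
  have E : V ≃[Language.graph] W :=
    { e.toEquiv with
      map_fun' := fun f _ => isEmptyElim f
      map_rel' := by
        intro n r x
        cases r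
        exact e.map_rel_iff' }
  exact Language.StrongHomClass.realize_sentence E φ

theorem defines_of_definedBy {n K : ℕ} {G : SimpleGraph (Fin n)}
    (h : Pool.Agent.MPd11e37lc.DefinedBy G K) :
    ∃ φ : Language.graph.Sentence, Defines φ G ∧ qdepth φ ≤ K := by
  obtain ⟨φ, h1, h2⟩ := h
  refine ⟨φ, ⟨(h2 n G).2 ⟨RelIso.refl _⟩, ?_⟩, qdepth_le h1⟩
  intro W _ H hiso hφ
  obtain ⟨m, ⟨e⟩⟩ := Finite.exists_equiv_fin W
  let H' : SimpleGraph (Fin m) := H.map e.toEmbedding
  have f : H ≃g H' := SimpleGraph.Iso.map e H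
  obtain ⟨g⟩ := (h2 m H').1 ((realize_iso f φ).1 hφ)
  exact hiso ⟨g.trans f.symm⟩

theorem depthLe_of_definedBy {n K : ℕ} {x : ℝ} {G : SimpleGraph (Fin n)}
    (h : Pool.Agent.MPd11e37lc.DefinedBy G K) (hx : (K : ℝ) ≤ x) : DepthLe x G := by
  obtain ⟨φ, h1, h2⟩ := defines_of_definedBy h
  have h3 : logicalDepth G ≤ (K : ℕ∞) := by
    unfold logicalDepth
    exact (iInf₂_le φ h1).trans (by exact_mod_cast h2)
  obtain ⟨k, hk⟩ := ENat.ne_top_iff_exists.1 (ne_top_of_le_ne_top (ENat.natCast_ne_top K) h3)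
  refine ⟨k, hk.symm, le_trans ?_ hx⟩
  rw [← hk] at h3
  exact_mod_cast h3

open Classical in
theorem prob_eq (n : ℕ) (p : ℝ) (A : SimpleGraph (Fin n) → Prop) :
    prob n p A = Pool.Agent.MPd11e37lc.Pr p
      (fun ω : Sym2 (Fin n) → Bool => A (Pool.Agent.MPd11e37lc.gr ω)) := by
  rw [← Pool.Agent.MPd11e37lc.sum_graph_eq_Pr]
  unfold prob
  refine Finset.sum_congr rfl fun G _ => ?_
  rw [Finset.prod_ite, Finset.prod_const, Finset.prod_const, Finset.filter_filter,
    Finset.filter_filter]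
  have h3 : (Finset.univ.filter fun e : Sym2 (Fin n) => ¬ e.IsDiag ∧ e ∈ G.edgeSet) =
      G.edgeFinset := by
    ext e
    simp only [Finset.mem_filter, Finset.mem_univ, true_and, SimpleGraph.mem_edgeFinset]
    exact ⟨fun h => h.2, fun h => ⟨G.not_isDiag_of_mem_edgeSet h, h⟩⟩
  have h4 : G.edgeSet.ncard = G.edgeFinset.card := by
    rw [← SimpleGraph.coe_edgeFinset, Set.ncard_coe_finset]
  have h5 : (Finset.univ.filter fun e : Sym2 (Fin n) => ¬ e.IsDiag).card = n.choose 2 := by
    have := Sym2.card_subtype_not_diag (α := Fin n)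
    rw [Fintype.card_fin] at this
    rw [← this, Fintype.card_subtype]
  have h6 : (Finset.univ.filter fun e : Sym2 (Fin n) => ¬ e.IsDiag ∧ e ∉ G.edgeSet).card =
      n.choose 2 - G.edgeSet.ncard := by
    have h7 := Finset.card_filter_add_card_filter_not
      (s := Finset.univ.filter fun e : Sym2 (Fin n) => ¬ e.IsDiag) (fun e => e ∈ G.edgeSet)
    rw [Finset.filter_filter, Finset.filter_filter, h3, h5] at h7
    rw [h4]
    omega
  rw [h3, h6, h4]

/-- There is an absolute constant C such that D(G(n, p)) ≤ C log n with probability at least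
1 - 6 / n for all sufficiently large n and all p with (log n)^20 / n ≤ p ≤ 1 / 2. For all δ in
(0, 1) and all functions p with n^(-δ) ≤ p(n) ≤ 1 / 2 (for all sufficiently large n),
D(G(n, p)) ≤ C log n with high probability, with the same constant C. -/
theorem result :
    ∃ C : ℝ, 0 < C ∧
      (∃ n₀ : ℕ, ∀ n ≥ n₀, ∀ p : ℝ, Real.log n ^ 20 / n ≤ p → p ≤ 1 / 2 →
        1 - 6 / (n : ℝ) ≤ prob n p (DepthLe (C * Real.log n))) ∧
      ∀ δ : ℝ, 0 < δ → δ < 1 → ∀ p : ℕ → ℝ,
        (∀ᶠ n : ℕ in atTop, (n : ℝ) ^ (-δ) ≤ p n ∧ p n ≤ 1 / 2) →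
        Tendsto (fun n : ℕ => prob n (p n) (DepthLe (C * Real.log n))) atTop (nhds 1) := by
  obtain ⟨C, hC, hmain⟩ := Pool.Agent.MPd11e37lc.main_bound
  have hlog : Tendsto (fun n : ℕ => Real.log (n : ℝ)) atTop atTop :=
    Real.tendsto_log_atTop.comp tendsto_natCast_atTop_atTop
  have h1 : ∀ᶠ n : ℕ in atTop, ∀ p : ℝ, Real.log n ^ 20 / n ≤ p → p ≤ 1 / 2 →
      1 - 6 / (n : ℝ) ≤ prob n p (DepthLe (C * Real.log n)) := by
    filter_upwards [hlog.eventually hmain, eventually_gt_atTop 1] with n h2 h3 p hp1 hp2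
    have hn1 : (1 : ℝ) < n := by exact_mod_cast h3
    have hn0 : (0 : ℝ) < n := by linarith
    have hl0 : 0 < Real.log n := Real.log_pos hn1
    have hp0 : 0 < p := lt_of_lt_of_le (by positivity) hp1
    rw [div_le_iff₀ hn0] at hp1
    have h4 := h2 n p rfl hp0 hp2 (by linarith [mul_comm p (n : ℝ)])
    rw [Pool.Agent.MPd11e37lc.Pr_not] at h4
    have h5 : Real.exp (-Real.log (n : ℝ)) = 1 / n := by
      rw [Real.exp_neg, Real.exp_log hn0, one_div]
    rw [h5] at h4
    have h6 : Pool.Agent.MPd11e37lc.Pr p (fun ω : Sym2 (Fin n) → Bool =>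
        ∃ m : ℕ, (m : ℝ) ≤ C * Real.log n ∧
          Pool.Agent.MPd11e37lc.DefinedBy (Pool.Agent.MPd11e37lc.gr ω) m) ≤
        prob n p (DepthLe (C * Real.log n)) := by
      rw [prob_eq]
      refine Pool.Agent.MPd11e37lc.Pr_mono hp0.le (by linarith) ?_
      rintro ω ⟨m, hm, hd⟩
      exact depthLe_of_definedBy hd hm
    have h7 : 6 / (n : ℝ) = 6 * (1 / n) := by ring
    rw [h7]
    linarith
  refine ⟨C, hC, eventually_atTop.1 h1, ?_⟩
  intro δ _ hδ1 p hp
  have hlow : Tendsto (fun n : ℕ => 1 - 6 / (n : ℝ)) atTop (nhds 1) := by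
    have h2 : Tendsto (fun n : ℕ => 6 / (n : ℝ)) atTop (nhds 0) :=
      tendsto_const_nhds.div_atTop tendsto_natCast_atTop_atTop
    simpa using h2.const_sub 1
  have hev : ∀ᶠ n : ℕ in atTop, 0 < p n ∧ p n ≤ 1 / 2 ∧
      1 - 6 / (n : ℝ) ≤ prob n (p n) (DepthLe (C * Real.log n)) := by
    filter_upwards [hp, h1, hlog.eventually (Pool.Agent.MPd11e37lc.range_ok hδ1),
      eventually_gt_atTop 0] with n h2 h3 h4 h5
    have hn0 : (0 : ℝ) < n := by exact_mod_cast h5
    have hp0 : 0 < p n := lt_of_lt_of_le (Real.rpow_pos_of_pos hn0 _) h2.1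
    refine ⟨hp0, h2.2, h3 (p n) ?_ h2.2⟩
    rw [div_le_iff₀ hn0, mul_comm]
    exact h4 n (p n) rfl h2.1
  refine tendsto_of_tendsto_of_tendsto_of_le_of_le' hlow tendsto_const_nhds ?_ ?_
  · filter_upwards [hev] with n hn
    exact hn.2.2
  · filter_upwards [hev] with n hn
    rw [prob_eq]
    exact Pool.Agent.MPd11e37lc.Pr_le_one hn.1.le (by linarith [hn.2.1]) _

end Pool.Agent.Results.MP_d11e37_lc.LogDepth
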